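import Mathlib
import Pool.Agent.H.MP_b9ebd9_co.Main

namespace Pool.Agent.Results.MP_b9ebd9_co.Disproof

variable {V : Type} [Fintype V] [DecidableEq V]

/-- more than 3 vertices, and connected after deleting any fewer than 3 vertices -/
def ThreeConnected (G : SimpleGraph V) : Prop :=
  3 < Fintype.card V ∧ ∀ S : Finset V, S.card < 3 → (G.induce ((S : Set V)ᶜ)).Connected

/-- lengths of postman tours -/
def tourLengths (G : SimpleGraph V) : Set ℕ :=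
  {n | ∃ (v : V) (p : G.Walk v v), (∀ e ∈ G.edgeSet, e ∈ p.edges) ∧ p.length = n}

/-- total lengths of cycle covers -/
def coverLengths (G : SimpleGraph V) : Set ℕ :=
  {n | ∃ F : List (Σ v, G.Walk v v), (∀ C ∈ F, C.2.IsCycle) ∧
    (∀ e ∈ G.edgeSet, ∃ C ∈ F, e ∈ C.2.edges) ∧ (F.map (fun C => C.2.length)).sum = n}

open Classical in
/-- eulerian (1,2)-weight -/
def Eulerian (G : SimpleGraph V) (w : Sym2 V → ℕ) : Prop :=
  (∀ e ∈ G.edgeSet, w e = 1 ∨ w e = 2) ∧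
  ∀ S : Finset V, Even (∑ e ∈ Finset.univ.filter
    (fun e : Sym2 V => e ∈ G.edgeSet ∧ ∃ u ∈ S, ∃ v ∉ S, e = s(u, v)), w e)

/-- existence of a cycle w-cover -/
def Coverable (G : SimpleGraph V) (w : Sym2 V → ℕ) : Prop :=
  ∃ F : List (Σ v, G.Walk v v), (∀ C ∈ F, C.2.IsCycle) ∧
    ∀ e ∈ G.edgeSet, F.countP (fun C => decide (e ∈ C.2.edges)) = w e

theorem result : ∃ G : SimpleGraph (Fin 12), ThreeConnected G ∧
    (∃ m, IsLeast (tourLengths G) m ∧ IsLeast (coverLengths G) m) ∧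
    ∃ w, Eulerian G w ∧ ¬ Coverable G w := by
  refine ⟨Pool.Agent.H.MP_b9ebd9_co.G, ⟨by simp, Pool.Agent.H.MP_b9ebd9_co.conn⟩,
    ⟨24, Pool.Agent.H.MP_b9ebd9_co.cpp, Pool.Agent.H.MP_b9ebd9_co.scc⟩,
    Pool.Agent.H.MP_b9ebd9_co.w, ⟨fun e _ => Pool.Agent.H.MP_b9ebd9_co.w12 e, fun S => ?_⟩,
    Pool.Agent.H.MP_b9ebd9_co.not_cov⟩
  convert Pool.Agent.H.MP_b9ebd9_co.cut S

end Pool.Agent.Results.MP_b9ebd9_co.Disproof
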